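import Pool.Agent.Helper83_CNED.Basic

/-!
The swap of the `i`-th coordinate with an additional real variable preserves the measure.
-/

open MeasureTheory Set Topology Filter

open scoped ENNReal

noncomputable section

namespace Pool.Agent.Helper83_CNED.H72

/-- the swap of the `i`-th coordinate of `p` and `r` -/
def swp {n : ℕ} (i : Fin n) (q : Eu n × ℝ) : Eu n × ℝ := (line q.1 i q.2, q.1 i)

theorem swp_swp {n : ℕ} (i : Fin n) (q : Eu n × ℝ) : swp i (swp i q) = q := by
  unfold swp
  ext j
  · change (line (line q.1 i q.2) i (q.1 i)) j = q.1 j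
    rw [line_line, line_self]
  · change (line q.1 i q.2) i = q.2
    exact line_same _ _ _

/-- the swap as a linear map -/
def swpL {n : ℕ} (i : Fin n) : (Eu n × ℝ) →ₗ[ℝ] (Eu n × ℝ) where
  toFun := swp i
  map_add' := by
    intro x y
    unfold swp
    ext j
    · change (line (x.1 + y.1) i (x.2 + y.2)) j = (line x.1 i x.2) j + (line y.1 i y.2) j
      rw [line_apply, line_apply, line_apply]
      split_ifs <;> simp
    · change (x.1 + y.1) i = x.1 i + y.1 i
      simp
  map_smul' := by
    intro c x
    unfold swp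
    ext j
    · change (line (c • x.1) i (c • x.2)) j = c * (line x.1 i x.2) j
      rw [line_apply, line_apply]
      split_ifs <;> simp
    · change (c • x.1) i = c * x.1 i
      simp

theorem measurePreserving_swp {n : ℕ} (i : Fin n) :
    MeasurePreserving (swp i) ((volume : Measure (Eu n)).prod (volume : Measure ℝ))
      ((volume : Measure (Eu n)).prod (volume : Measure ℝ)) := by
  have h2 : (swpL i) ∘ₗ (swpL i) = (LinearMap.id : (Eu n × ℝ) →ₗ[ℝ] (Eu n × ℝ)) := by
    apply LinearMap.ext
    intro q
    exact swp_swp i q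
  have hdet : LinearMap.det (swpL i) * LinearMap.det (swpL i) = 1 := by
    rw [← LinearMap.det_comp, h2, LinearMap.det_id]
  have hne : LinearMap.det (swpL i) ≠ 0 := by
    intro h; rw [h] at hdet; simp at hdet
  have habs : |(LinearMap.det (swpL i))⁻¹| = 1 := by
    have : |LinearMap.det (swpL i)| * |LinearMap.det (swpL i)| = 1 := by
      rw [← abs_mul, hdet, abs_one]
    have h3 : |LinearMap.det (swpL i)| = 1 := by nlinarith [abs_nonneg (LinearMap.det (swpL i))]
    rw [abs_inv, h3, inv_one]
  refine ⟨?_, ?_⟩
  · exact (LinearMap.continuous_of_finiteDimensional (swpL i)).measurable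
  · have h := Measure.map_linearMap_addHaar_eq_smul_addHaar
      ((volume : Measure (Eu n)).prod (volume : Measure ℝ)) hne
    rw [habs, ENNReal.ofReal_one, one_smul] at h
    exact h

/-- Fubini for lines, general form -/
theorem lintegral_swp {n : ℕ} (i : Fin n) (F : Eu n → ℝ → ℝ≥0∞)
    (hF : Measurable (Function.uncurry F)) :
    ∫⁻ p : Eu n, ∫⁻ r : ℝ, F (line p i r) (p i) = ∫⁻ p : Eu n, ∫⁻ r : ℝ, F p r := by
  have h := (measurePreserving_swp i).lintegral_comp hF
  have h1 := lintegral_prod (μ := (volume : Measure (Eu n))) (ν := (volume : Measure ℝ)) _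
    hF.aemeasurable
  have h2 := lintegral_prod (μ := (volume : Measure (Eu n))) (ν := (volume : Measure ℝ)) _
    ((hF.comp (measurePreserving_swp i).measurable).aemeasurable)
  rw [h1] at h
  exact h2.symm.trans h

/-- a property that holds almost everywhere holds on almost every line almost everywhere -/
theorem ae_line {n : ℕ} (i : Fin n) {P : Eu n → Prop} (h : ∀ᵐ x : Eu n, P x) :
    ∀ᵐ p : Eu n, ∀ᵐ r : ℝ, P (line p i r) := by
  have h1 : ∀ᵐ q ∂((volume : Measure (Eu n)).prod (volume : Measure ℝ)), P q.1 :=
    Measure.quasiMeasurePreserving_fst.ae h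
  have h2 : ∀ᵐ q ∂((volume : Measure (Eu n)).prod (volume : Measure ℝ)), P (swp i q).1 :=
    (measurePreserving_swp i).quasiMeasurePreserving.ae h1
  exact Measure.ae_ae_of_ae_prod h2

/-- a property of lines that holds for almost all `p` with `p i ∈ A` holds for almost all `p` -/
theorem ae_of_ae_mem {n : ℕ} (i : Fin n) {P : Eu n → Prop} {A : Set ℝ} (hA : volume A ≠ 0)
    (hP : ∀ p r, P (line p i r) → P p) (h : ∀ᵐ p : Eu n, p i ∈ A → P p) :
    ∀ᵐ p : Eu n, P p := by
  filter_upwards [ae_line i h] with p hp
  by_contra hcon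
  apply hA
  have : ∀ᵐ r : ℝ, r ∉ A := by
    filter_upwards [hp] with r hr hrA
    apply hcon
    apply hP p r
    apply hr
    rw [line_same]
    exact hrA
  rw [ae_iff] at this
  simpa using this

end Pool.Agent.Helper83_CNED.H72
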