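import Pool.Agent.Helper83_CNED.Stmt
import Pool.Agent.Helper72_CNED.Swap

/-!
ACLOF: from the upper gradient property on almost every line to ACL.
-/

open MeasureTheory Set Topology Filter AbsolutelyContinuousOnInterval

open scoped ENNReal

noncomputable section

namespace Pool.Agent.Helper83_CNED.H72

/-- absolute continuity from an integrable upper gradient -/
theorem ac_of_ug {X : Type*} [PseudoMetricSpace X] {F : ℝ → X} {g : ℝ → ℝ≥0∞} {a b : ℝ}
    (hg : ∫⁻ r in uIoc a b, g r ≠ ⊤)
    (h : ∀ s t : ℝ, s ≤ t → edist (F s) (F t) ≤ ∫⁻ r in Ioo s t, g r) :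
    AbsolutelyContinuousOnInterval F a b := by
  have h' : ∀ s t : ℝ, edist (F s) (F t) ≤ ∫⁻ r in uIoc s t, g r := by
    intro s t
    rcases le_total s t with hst | hst
    · rw [uIoc_of_le hst]
      exact (h s t hst).trans (lintegral_mono_set Ioo_subset_Ioc_self)
    · rw [uIoc_of_ge hst, edist_comm]
      exact (h t s hst).trans (lintegral_mono_set Ioo_subset_Ioc_self)
  let s := fun E : ℕ × (ℕ → ℝ × ℝ) ↦ ⋃ i ∈ Finset.range E.1, uIoc (E.2 i).1 (E.2 i).2
  have h1 : Tendsto (fun i ↦ ∫⁻ (x : ℝ) in s i, g x ∂volume.restrict (uIoc a b))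
      (totalLengthFilter ⊓ 𝓟 (disjWithin a b)) (𝓝 0) :=
    tendsto_setLIntegral_zero hg
      (tendsto_volume_restrict_totalLengthFilter_disjWithin_nhds_zero _ _)
  have h2 := ENNReal.toReal_zero ▸ (ENNReal.continuousAt_toReal (by simp)).tendsto.comp h1
  refine squeeze_zero' ?_ ?_ h2
  · filter_upwards with E
    exact Finset.sum_nonneg (fun _ _ ↦ dist_nonneg)
  have h3 : ∀ᶠ (E : ℕ × (ℕ → ℝ × ℝ)) in totalLengthFilter ⊓ 𝓟 (disjWithin a b),
      E ∈ disjWithin a b :=
    eventually_inf_principal.mpr (by simp)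
  filter_upwards [h3] with E hE
  obtain ⟨n, I⟩ := E
  have hE2 : Set.PairwiseDisjoint (Finset.range n) (fun i ↦ uIoc (I i).1 (I i).2) := hE.2
  have hsub : s (n, I) ⊆ uIoc a b := biUnion_uIoc_subset_of_mem_disjWithin hE
  have hfin : ∫⁻ (x : ℝ) in s (n, I), g x ∂volume.restrict (uIoc a b) ≠ ⊤ := by
    refine ne_top_of_le_ne_top hg ?_
    exact setLIntegral_le_lintegral _ _
  have h4 : ∑ i ∈ Finset.range n, edist (F (I i).1) (F (I i).2) ≤
      ∫⁻ (x : ℝ) in s (n, I), g x ∂volume.restrict (uIoc a b) := by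
    rw [Measure.restrict_restrict_of_subset hsub]
    change _ ≤ ∫⁻ (x : ℝ) in ⋃ i ∈ Finset.range n, uIoc (I i).1 (I i).2, g x
    rw [lintegral_biUnion_finset hE2 (fun i _ => measurableSet_uIoc)]
    exact Finset.sum_le_sum fun i _ => h' _ _
  have h5 := ENNReal.toReal_mono hfin h4
  rw [ENNReal.toReal_sum] at h5
  · refine le_trans (le_of_eq ?_) h5
    refine Finset.sum_congr rfl fun i _ => ?_
    rw [edist_dist, ENNReal.toReal_ofReal dist_nonneg]
  · intro i _
    exact edist_ne_top _ _

theorem bounded_box (a b : Fin 3 → ℝ) :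
    ∃ R : ℝ, {x : Eu 3 | ∀ j, x j ∈ Icc (a j) (b j)} ⊆ Metric.closedBall 0 R := by
  have hb : {x : Eu 3 | ∀ j, x j ∈ Icc (a j) (b j)} ⊆
      (EuclideanSpace.equiv (Fin 3) ℝ).toHomeomorph ⁻¹'
      (Set.pi Set.univ fun j => Icc (a j) (b j)) := by
    intro x hx
    rw [Set.mem_preimage, Set.mem_univ_pi]
    intro j
    exact hx j
  have hc : IsCompact ((EuclideanSpace.equiv (Fin 3) ℝ).toHomeomorph ⁻¹'
      (Set.pi Set.univ fun j => Icc (a j) (b j))) := by
    rw [Homeomorph.isCompact_preimage]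
    exact isCompact_univ_pi fun _ => isCompact_Icc
  exact (hc.isBounded.subset hb).subset_closedBall 0

theorem measurableSet_box (a b : Fin 3 → ℝ) :
    MeasurableSet {x : Eu 3 | ∀ j, x j ∈ Icc (a j) (b j)} := by
  have : {x : Eu 3 | ∀ j, x j ∈ Icc (a j) (b j)} = ⋂ j, {x : Eu 3 | x j ∈ Icc (a j) (b j)} := by
    ext x; simp
  rw [this]
  refine MeasurableSet.iInter fun j => ?_
  have hj : Measurable (fun x : Eu 3 => x j) := by fun_prop
  exact hj measurableSet_Icc

/-- local integrability gives integrability on almost all segments -/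
theorem ae_integral_line {G : Eu 3 → ℝ≥0∞} (hG : Measurable G)
    (hint : ∀ r : ℝ, ∫⁻ x in Metric.closedBall 0 r, G x < ⊤) (a b : Fin 3 → ℝ) (i : Fin 3) :
    ∀ᵐ p : Eu 3, (∀ j, p j ∈ Icc (a j) (b j)) →
      ∫⁻ r in Icc (a i) (b i), G (line p i r) ≠ ⊤ := by
  set B : Set (Eu 3) := {x | ∀ j, x j ∈ Icc (a j) (b j)} with hB
  have hBm : MeasurableSet B := measurableSet_box a b
  obtain ⟨R, hR⟩ := bounded_box a b
  set F : Eu 3 → ℝ → ℝ≥0∞ := fun p r =>
    B.indicator G p * (Icc (a i) (b i)).indicator (fun _ => 1) r with hF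
  have hFm : Measurable (Function.uncurry F) := by
    have h1 : Measurable (B.indicator G) := hG.indicator hBm
    have h2 : Measurable ((Icc (a i) (b i)).indicator (fun _ => (1 : ℝ≥0∞))) :=
      measurable_const.indicator measurableSet_Icc
    exact (h1.comp measurable_fst).mul (h2.comp measurable_snd)
  have hfin : ∫⁻ p : Eu 3, ∫⁻ r : ℝ, F p r < ⊤ := by
    have h1 : ∀ p : Eu 3, ∫⁻ r : ℝ, F p r = B.indicator G p * ENNReal.ofReal (b i - a i) := by
      intro p
      simp only [hF]
      rw [lintegral_const_mul _ (measurable_const.indicator measurableSet_Icc),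
        lintegral_indicator measurableSet_Icc]
      simp
    simp_rw [h1]
    rw [lintegral_mul_const _ (hG.indicator hBm), lintegral_indicator hBm]
    refine ENNReal.mul_lt_top ?_ ENNReal.ofReal_lt_top
    exact lt_of_le_of_lt (lintegral_mono_set hR) (hint R)
  rw [← lintegral_swp i F hFm] at hfin
  have hmeas : Measurable fun p : Eu 3 => ∫⁻ r : ℝ, F (line p i r) (p i) :=
    Measurable.lintegral_prod_right' (hFm.comp (measurePreserving_swp i).measurable)
  filter_upwards [ae_lt_top hmeas hfin.ne] with p hp hpB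
  refine ne_top_of_le_ne_top hp.ne ?_
  rw [← lintegral_indicator measurableSet_Icc]
  refine lintegral_mono fun r => ?_
  by_cases hr : r ∈ Icc (a i) (b i)
  · rw [indicator_of_mem hr]
    have hl : line p i r ∈ B := by
      intro j
      rw [line_apply]
      split_ifs with hj
      · rw [hj]; exact hr
      · exact hpB j
    simp only [hF]
    rw [indicator_of_mem hl, indicator_of_mem (hpB i), mul_one]
  · rw [indicator_of_notMem hr]
    exact zero_le

theorem aclof : AclOfStmt := by
  intro f G hG hint hug a b _ i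
  filter_upwards [ae_integral_line hG hint a b i, hug i] with p h1 h2 hp
  have hab : a i ≤ b i := (hp i).1.trans (hp i).2
  refine ac_of_ug (g := fun r => G (line p i r)) ?_ h2
  rw [uIoc_of_le hab]
  exact ne_top_of_le_ne_top (h1 hp) (lintegral_mono_set Ioc_subset_Icc_self)

end Pool.Agent.Helper83_CNED.H72
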