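import Pool.Agent.Helper83_CNED.Stmt

/-!
AREA: the derivative of a quasiconformal map is locally integrable.
-/

open MeasureTheory Set Topology Filter

open scoped ENNReal

noncomputable section

namespace Pool.Agent.Helper83_CNED.H72

theorem area : AreaStmt := by
  intro K f U hU hf r
  obtain ⟨hc, hinj, hacl, hae⟩ := hf
  set D : Set (Eu 3) := {x | DifferentiableAt ℝ f x} with hD
  have hDm : MeasurableSet D := measurableSet_of_differentiableAt ℝ f
  set S : Set (Eu 3) := Metric.closedBall 0 r ∩ U with hS
  have hSm : MeasurableSet S := Metric.isClosed_closedBall.measurableSet.inter hU.measurableSet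
  have hSD : MeasurableSet (S ∩ D) := hSm.inter hDm
  have hball : IsCompact (Metric.closedBall (0 : Eu 3) r) := isCompact_closedBall _ _
  have himg : volume (f '' (S ∩ D)) < ⊤ := by
    refine lt_of_le_of_lt (measure_mono ?_) (hball.image f.continuous).measure_lt_top
    exact image_mono (fun x hx => hx.1.1)
  have harea : ∫⁻ x in S ∩ D, ENNReal.ofReal |(fderiv ℝ f x).det| = volume (f '' (S ∩ D)) := by
    apply lintegral_abs_det_fderiv_eq_addHaar_image volume hSD
    · intro x hx
      exact (DifferentiableAt.hasFDerivAt hx.2).hasFDerivWithinAt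
    · exact f.injective.injOn
  have hSvol : volume S < ⊤ :=
    lt_of_le_of_lt (measure_mono inter_subset_left) hball.measure_lt_top
  have hbound : ∀ᵐ x ∂(volume.restrict S), ‖fderiv ℝ f x‖ₑ ≤
      1 + ENNReal.ofReal K * (D.indicator (fun x => ENNReal.ofReal |(fderiv ℝ f x).det|) x) := by
    rw [ae_restrict_iff' hSm]
    filter_upwards [hae] with x hx hxS
    obtain ⟨h1, h2⟩ := hx hxS.2
    have hxD : x ∈ D := h1
    rw [indicator_of_mem hxD]
    by_cases hle : ‖fderiv ℝ f x‖ ≤ 1
    · refine le_trans ?_ le_self_add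
      rw [← ofReal_norm, ← ENNReal.ofReal_one]
      exact ENNReal.ofReal_le_ofReal hle
    · push Not at hle
      refine le_trans ?_ le_add_self
      have h3 : ‖fderiv ℝ f x‖ ≤ K * |(fderiv ℝ f x).det| := by
        refine le_trans ?_ h2
        calc ‖fderiv ℝ f x‖ = ‖fderiv ℝ f x‖ ^ 1 := (pow_one _).symm
          _ ≤ ‖fderiv ℝ f x‖ ^ 3 := pow_le_pow_right₀ hle.le (by norm_num)
      have hK : 0 ≤ K := by
        by_contra hcon
        push Not at hcon
        have : K * |(fderiv ℝ f x).det| ≤ 0 :=
          mul_nonpos_of_nonpos_of_nonneg hcon.le (abs_nonneg _)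
        linarith
      rw [← ofReal_norm, ← ENNReal.ofReal_mul hK]
      exact ENNReal.ofReal_le_ofReal h3
  calc ∫⁻ x in S, ‖fderiv ℝ f x‖ₑ
      ≤ ∫⁻ x in S, (1 + ENNReal.ofReal K *
          (D.indicator (fun x => ENNReal.ofReal |(fderiv ℝ f x).det|) x)) :=
        lintegral_mono_ae hbound
    _ = volume S + ENNReal.ofReal K * volume (f '' (S ∩ D)) := by
        rw [lintegral_add_left measurable_const, lintegral_const_mul' _ _ ENNReal.ofReal_ne_top,
          lintegral_indicator hDm, Measure.restrict_restrict hDm, inter_comm D S, harea]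
        simp
    _ < ⊤ := ENNReal.add_lt_top.2 ⟨hSvol, ENNReal.mul_lt_top ENNReal.ofReal_lt_top himg⟩

end Pool.Agent.Helper83_CNED.H72
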