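import Pool.Agent.Helper83_CNED.Stmt
import Pool.Agent.Helper72_CNED.Swap

/-!
FRAME: frames are homeomorphisms, transport of the upper gradient property, change of
variables.
-/

open MeasureTheory Set Topology Filter

open scoped ENNReal

noncomputable section

namespace Pool.Agent.Helper83_CNED.H72

/-- lower end of the image of an interval under `x ↦ c + κ x` -/
def lo (κ c a b : ℝ) : ℝ := if 0 < κ then c + κ * a else c + κ * b

/-- upper end of the image of an interval under `x ↦ c + κ x` -/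
def hi (κ c a b : ℝ) : ℝ := if 0 < κ then c + κ * b else c + κ * a

theorem mem_iff {κ : ℝ} (hκ : κ ≠ 0) (c a b x : ℝ) :
    (lo κ c a b < c + κ * x ∧ c + κ * x < hi κ c a b) ↔ (a < x ∧ x < b) := by
  unfold lo hi
  by_cases h : 0 < κ
  · rw [if_pos h, if_pos h, add_lt_add_iff_left, add_lt_add_iff_left, mul_lt_mul_iff_right₀ h,
      mul_lt_mul_iff_right₀ h]
  · have h' : κ < 0 := lt_of_le_of_ne (not_lt.1 h) hκ
    rw [if_neg h, if_neg h, add_lt_add_iff_left, add_lt_add_iff_left, mul_lt_mul_left_of_neg h',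
      mul_lt_mul_left_of_neg h', and_comm]

theorem image_Ioo {κ : ℝ} (hκ : κ ≠ 0) (c s t : ℝ) :
    (fun x => c + κ * x) '' Ioo s t = Ioo (lo κ c s t) (hi κ c s t) := by
  ext y
  constructor
  · rintro ⟨x, hx, rfl⟩
    exact (mem_iff hκ c s t x).2 hx
  · intro hy
    have hy' : y = c + κ * ((y - c) / κ) := by field_simp; ring
    refine ⟨(y - c) / κ, ?_, hy'.symm⟩
    rw [hy'] at hy
    exact (mem_iff hκ c s t _).1 hy

/-- affine change of variables on the line -/
theorem lintegral_affine {κ : ℝ} (hκ : κ ≠ 0) (c s t : ℝ) (g : ℝ → ℝ≥0∞) :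
    ∫⁻ r in Ioo (lo κ c s t) (hi κ c s t), g r =
      ∫⁻ r in Ioo s t, ENNReal.ofReal |κ| * g (c + κ * r) := by
  rw [← image_Ioo hκ c s t]
  apply lintegral_image_eq_lintegral_abs_deriv_mul measurableSet_Ioo (f' := fun _ => κ)
  · intro x _
    have h : HasDerivAt (fun x : ℝ => c + κ * x) (κ * 1) x :=
      ((hasDerivAt_id x).const_mul κ).const_add c
    rw [mul_one] at h
    exact h.hasDerivWithinAt
  · intro x _ y _ hxy
    exact mul_left_cancel₀ hκ (add_left_cancel hxy)

/-- the coefficient in direction `l` -/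
def kap (ε σ : ℝ) (i l : Fin 3) : ℝ := (if l = i then σ else 1) * ε

theorem kap_abs {ε σ : ℝ} (hε : 0 < ε) (hσ : σ = 1 ∨ σ = -1) (i l : Fin 3) :
    |kap ε σ i l| = ε := by
  unfold kap
  split_ifs
  · rcases hσ with rfl | rfl
    · rw [one_mul, abs_of_pos hε]
    · rw [neg_one_mul, abs_neg, abs_of_pos hε]
  · rw [one_mul, abs_of_pos hε]

theorem kap_ne {ε σ : ℝ} (hε : 0 < ε) (hσ : σ = 1 ∨ σ = -1) (i l : Fin 3) :
    kap ε σ i l ≠ 0 := by
  intro h
  have := kap_abs hε hσ i l
  rw [h, abs_zero] at this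
  exact hε.ne this

theorem frame_apply (ε σ : ℝ) (i : Fin 3) (c : Fin 3 → ℝ) (x : Eu 3) (j : Fin 3) :
    frame ε σ i c x j = c j + kap ε σ i j * x (j - i) := rfl

/-- the linear part of the frame -/
def frL (ε σ : ℝ) (i : Fin 3) : Eu 3 →ₗ[ℝ] Eu 3 where
  toFun x := WithLp.toLp 2 (fun j => kap ε σ i j * x (j - i))
  map_add' := by
    intro x y
    ext j
    change kap ε σ i j * (x (j - i) + y (j - i)) = kap ε σ i j * x (j - i) + kap ε σ i j * y (j - i)
    ring
  map_smul' := by
    intro r x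
    ext j
    change kap ε σ i j * (r * x (j - i)) = r * (kap ε σ i j * x (j - i))
    ring

theorem frL_apply (ε σ : ℝ) (i : Fin 3) (x : Eu 3) (j : Fin 3) :
    frL ε σ i x j = kap ε σ i j * x (j - i) := rfl

theorem frame_eq (ε σ : ℝ) (i : Fin 3) (c : Fin 3 → ℝ) (x : Eu 3) :
    frame ε σ i c x = WithLp.toLp 2 c + frL ε σ i x := by
  ext j
  rfl

/-- the inverse of the frame -/
def frInv (ε σ : ℝ) (i : Fin 3) (c : Fin 3 → ℝ) (y : Eu 3) : Eu 3 :=
  WithLp.toLp 2 (fun k => (kap ε σ i (k + i))⁻¹ * (y (k + i) - c (k + i)))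

theorem frInv_frame {ε σ : ℝ} (hε : 0 < ε) (hσ : σ = 1 ∨ σ = -1) (i : Fin 3) (c : Fin 3 → ℝ)
    (x : Eu 3) : frInv ε σ i c (frame ε σ i c x) = x := by
  ext k
  change (kap ε σ i (k + i))⁻¹ * (frame ε σ i c x (k + i) - c (k + i)) = x k
  have := kap_ne hε hσ i (k + i)
  rw [frame_apply, add_sub_cancel_right, add_sub_cancel_left]
  field_simp

theorem frame_frInv {ε σ : ℝ} (hε : 0 < ε) (hσ : σ = 1 ∨ σ = -1) (i : Fin 3) (c : Fin 3 → ℝ)
    (y : Eu 3) : frame ε σ i c (frInv ε σ i c y) = y := by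
  ext j
  rw [frame_apply]
  change c j + kap ε σ i j * ((kap ε σ i (j - i + i))⁻¹ * (y (j - i + i) - c (j - i + i))) = y j
  have := kap_ne hε hσ i j
  rw [sub_add_cancel]
  field_simp
  ring

/-- the frame as a homeomorphism -/
def frHomeo {ε σ : ℝ} (hε : 0 < ε) (hσ : σ = 1 ∨ σ = -1) (i : Fin 3) (c : Fin 3 → ℝ) :
    Eu 3 ≃ₜ Eu 3 where
  toFun := frame ε σ i c
  invFun := frInv ε σ i c
  left_inv := frInv_frame hε hσ i c
  right_inv := frame_frInv hε hσ i c
  continuous_toFun := by
    unfold frame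
    fun_prop
  continuous_invFun := by
    unfold frInv
    fun_prop

theorem frL_six {σ : ℝ} (hσ : σ = 1 ∨ σ = -1) (i : Fin 3) (x : Eu 3) :
    frL 1 σ i (frL 1 σ i (frL 1 σ i (frL 1 σ i (frL 1 σ i (frL 1 σ i x))))) = x := by
  have hk : ∀ l, kap 1 σ i l * kap 1 σ i l = 1 := by
    intro l
    have h := kap_abs one_pos hσ i l
    rw [← abs_mul_abs_self, h, one_mul]
  have h30 : ∀ i j : Fin 3, j - i - i - i = j := by decide
  have h3 : ∀ j, j - i - i - i = j := h30 i
  ext j
  simp only [frL_apply, h3]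
  calc kap 1 σ i j * (kap 1 σ i (j - i) * (kap 1 σ i (j - i - i) * (kap 1 σ i j *
        (kap 1 σ i (j - i) * (kap 1 σ i (j - i - i) * x j)))))
      = (kap 1 σ i j * kap 1 σ i j) * (kap 1 σ i (j - i) * kap 1 σ i (j - i)) *
        (kap 1 σ i (j - i - i) * kap 1 σ i (j - i - i)) * x j := by ring
    _ = x j := by rw [hk, hk, hk]; ring

theorem det_frL_one {σ : ℝ} (hσ : σ = 1 ∨ σ = -1) (i : Fin 3) :
    |LinearMap.det (frL 1 σ i)| = 1 := by
  set A := frL 1 σ i with hA
  have h2 : A ∘ₗ A ∘ₗ A ∘ₗ A ∘ₗ A ∘ₗ A = (LinearMap.id : Eu 3 →ₗ[ℝ] Eu 3) := by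
    apply LinearMap.ext
    intro q
    exact frL_six hσ i q
  have hdet : (LinearMap.det A) ^ 6 = 1 := by
    have := congrArg LinearMap.det h2
    simp only [LinearMap.det_comp, LinearMap.det_id] at this
    rw [← this]
    ring
  have h3 : |LinearMap.det A| ^ 6 = 1 := by rw [← abs_pow, hdet, abs_one]
  exact (pow_eq_one_iff_of_nonneg (abs_nonneg _) (by norm_num)).1 h3

theorem frL_smul (ε σ : ℝ) (i : Fin 3) : frL ε σ i = ε • frL 1 σ i := by
  apply LinearMap.ext
  intro x
  ext j
  change kap ε σ i j * x (j - i) = ε * (kap 1 σ i j * x (j - i))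
  unfold kap
  ring

theorem det_frL {ε σ : ℝ} (hε : 0 < ε) (hσ : σ = 1 ∨ σ = -1) (i : Fin 3) :
    |LinearMap.det (frL ε σ i)| = ε ^ 3 := by
  rw [frL_smul, LinearMap.det_smul, abs_mul, det_frL_one hσ, mul_one, abs_of_pos (by positivity)]
  simp

/-- change of variables -/
theorem lintegral_frame {ε σ : ℝ} (hε : 0 < ε) (hσ : σ = 1 ∨ σ = -1) (i : Fin 3)
    (c : Fin 3 → ℝ) (F : Eu 3 → ℝ≥0∞) (S : Set (Eu 3)) (hF : Measurable F)
    (hS : MeasurableSet S) :
    ∫⁻ p in frame ε σ i c '' S, F p =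
      ENNReal.ofReal (ε ^ 3) * ∫⁻ x in S, F (frame ε σ i c x) := by
  have hder : ∀ x ∈ S, HasFDerivWithinAt (frame ε σ i c)
      (LinearMap.toContinuousLinearMap (frL ε σ i)) S x := by
    intro x _
    have h1 : HasFDerivAt (fun x : Eu 3 => WithLp.toLp 2 c + frL ε σ i x)
        (LinearMap.toContinuousLinearMap (frL ε σ i)) x := by
      exact ((LinearMap.toContinuousLinearMap (frL ε σ i)).hasFDerivAt).const_add _
    have h2 : (frame ε σ i c) = (fun x : Eu 3 => WithLp.toLp 2 c + frL ε σ i x) := by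
      funext x; exact frame_eq ε σ i c x
    rw [h2]
    exact h1.hasFDerivWithinAt
  rw [lintegral_image_eq_lintegral_abs_det_fderiv_mul volume hS hder
    ((frHomeo hε hσ i c).injective.injOn)]
  have hd : ∀ x : Eu 3, (LinearMap.toContinuousLinearMap (frL ε σ i)).det =
      LinearMap.det (frL ε σ i) := by
    intro x
    rfl
  simp_rw [hd 0, det_frL hε hσ i]
  have hm : Measurable fun x : Eu 3 => F (frame ε σ i c x) :=
    hF.comp (frHomeo hε hσ i c).continuous.measurable
  rw [lintegral_const_mul _ hm]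

theorem ae_frame {ε σ : ℝ} (hε : 0 < ε) (hσ : σ = 1 ∨ σ = -1) (i : Fin 3)
    (c : Fin 3 → ℝ) {P : Eu 3 → Prop} (h : ∀ᵐ x, P x) : ∀ᵐ x, P (frame ε σ i c x) := by
  set N := toMeasurable volume {x | ¬ P x} with hN
  have hN0 : volume N = 0 := by rw [hN, measure_toMeasurable]; exact h
  have hNm : MeasurableSet N := measurableSet_toMeasurable _ _
  have hS : MeasurableSet (frame ε σ i c ⁻¹' N) :=
    (frHomeo hε hσ i c).continuous.measurable hNm
  have h1 := lintegral_frame hε hσ i c (fun _ => 1) _ measurable_const hS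
  have h2 : volume (frame ε σ i c '' (frame ε σ i c ⁻¹' N)) = 0 :=
    measure_mono_null (image_preimage_subset _ _) hN0
  simp only [lintegral_const, one_mul, Measure.restrict_apply MeasurableSet.univ,
    univ_inter] at h1
  rw [h2] at h1
  have h3 : volume (frame ε σ i c ⁻¹' N) = 0 := by
    rcases mul_eq_zero.1 h1.symm with h4 | h4
    · exfalso
      rw [ENNReal.ofReal_eq_zero] at h4
      have : 0 < ε ^ 3 := by positivity
      linarith
    · exact h4
  rw [ae_iff]
  refine measure_mono_null ?_ h3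
  intro x hx
  exact subset_toMeasurable _ _ hx

theorem frame_line (ε σ : ℝ) (i : Fin 3) (c : Fin 3 → ℝ) (p : Eu 3) (j : Fin 3) (s : ℝ) :
    frame ε σ i c (line p j s) =
      line (frame ε σ i c p) (j + i) (c (j + i) + kap ε σ i (j + i) * s) := by
  ext l
  rw [frame_apply, line_apply, line_apply, frame_apply]
  by_cases h : l = j + i
  · have h' : l - i = j := by rw [h, add_sub_cancel_right]
    rw [if_pos h', if_pos h, h]
  · have h' : l - i ≠ j := by
      intro h2
      apply h
      rw [← h2, sub_add_cancel]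
    rw [if_neg h', if_neg h]

theorem frame_stmt : FrameStmt := by
  intro ε σ i c hε hσ
  refine ⟨⟨frHomeo hε hσ i c, fun _ => rfl⟩,
    fun F S hF hS => lintegral_frame hε hσ i c F S hF hS, ?_⟩
  intro f g V hg hV a b hab j
  have key := hV (j + i) (fun l => lo (kap ε σ i l) (c l) (a (l - i)) (b (l - i)))
    (fun l => hi (kap ε σ i l) (c l) (a (l - i)) (b (l - i))) ?_
  · filter_upwards [ae_frame hε hσ i c key] with p hp hp2 s t has hst htb
    rw [frame_line, frame_line]
    have h3 : ∀ r : ℝ, frame ε σ i c (line p j r) =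
        line (frame ε σ i c p) (j + i) (c (j + i) + kap ε σ i (j + i) * r) :=
      fun r => frame_line ε σ i c p j r
    simp_rw [h3]
    have h4 : ∀ l, l ≠ j + i → lo (kap ε σ i l) (c l) (a (l - i)) (b (l - i)) <
        frame ε σ i c p l ∧
        frame ε σ i c p l < hi (kap ε σ i l) (c l) (a (l - i)) (b (l - i)) := by
      intro l hl
      rw [frame_apply, mem_iff (kap_ne hε hσ i l)]
      apply hp2
      intro h2
      apply hl
      rw [← h2, sub_add_cancel]
    have h5 := hp h4
    have hκ := kap_ne hε hσ i (j + i)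
    have hκ2 := kap_abs hε hσ i (j + i)
    have e1 : j + i - i = j := add_sub_cancel_right j i
    rw [e1] at h5
    have h6 := lintegral_affine hκ (c (j + i)) s t
      (fun r => g (line (frame ε σ i c p) (j + i) r))
    rw [hκ2] at h6
    rw [← h6]
    clear h6
    generalize kap ε σ i (j + i) = κ at *
    unfold lo hi at h5 ⊢
    by_cases hpos : 0 < κ
    · simp only [if_pos hpos] at h5 ⊢
      apply h5
      · have := mul_lt_mul_of_pos_left has hpos; linarith
      · have := mul_le_mul_of_nonneg_left hst hpos.le; linarith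
      · have := mul_lt_mul_of_pos_left htb hpos; linarith
    · have hneg : κ < 0 := lt_of_le_of_ne (not_lt.1 hpos) hκ
      simp only [if_neg hpos] at h5 ⊢
      rw [edist_comm]
      apply h5
      · have := mul_lt_mul_of_neg_left htb hneg; linarith
      · have := mul_le_mul_of_nonpos_left hst hneg.le; linarith
      · have := mul_lt_mul_of_neg_left has hneg; linarith
  · intro y hy
    have hy2 : frame ε σ i c (frInv ε σ i c y) = y := frame_frInv hε hσ i c y
    rw [← hy2]
    apply hab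
    intro k
    have := hy (k + i)
    rw [← hy2, frame_apply] at this
    have e1 : k + i - i = k := add_sub_cancel_right k i
    simp only [e1] at this
    exact (mem_iff (kap_ne hε hσ i (k + i)) _ _ _ _).1 this

end Pool.Agent.Helper83_CNED.H72
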